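import Pool.Agent.X98.CI.Deg
/-!
# MP_b17976_an : Devron property for bipartite circle intersection (all n ≥ 3)

`IsCircle`, `Thru` (circle through three distinct points of the Riemann sphere `OnePoint ℂ`) and `IsMu` (`X = μ_i(A)`) are in
`Pool.Agent.X98.CI.*`. A `2n`-gon is a `2n`-periodic map `ℤ → OnePoint ℂ`.
-/
namespace Pool.Agent.Results.MP_b17976_an.CircleDevron
open Pool.Agent.X98.CI

/-- property (H) for the parity class of `p`: all `μ_i(A)`, `i ≡ p mod 2`, are the same point -/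
def HasH (A : ℤ → OnePoint ℂ) (p : ℤ) : Prop := ∃ O, ∀ i, i ≡ p [ZMOD 2] → IsMu A i O

/-- `A'` is obtained from `A` by one bipartite step: circle intersection at all vertices of the parity class of `q` -/
def IsStep (q : ℤ) (A A' : ℤ → OnePoint ℂ) : Prop :=
  ∀ i, (i ≡ q [ZMOD 2] → IsMu A i (A' i)) ∧ (¬ i ≡ q [ZMOD 2] → A' i = A i)

lemma IsMu_shift {A : ℤ → OnePoint ℂ} {i p : ℤ} {X : OnePoint ℂ} (h : IsMu A (i+p) X) : IsMu (fun k => A (k+p)) i X := by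
  obtain ⟨Γ₁, Γ₂, h1, h2, h3⟩ := h
  have e1 : i - 2 + p = i + p - 2 := by ring
  have e2 : i - 1 + p = i + p - 1 := by ring
  have e3 : i + 1 + p = i + p + 1 := by ring
  have e4 : i + 2 + p = i + p + 2 := by ring
  refine ⟨Γ₁, Γ₂, ?_, ?_, h3⟩
  · simp only [e1, e2]; exact h1
  · simp only [e3, e4]; exact h2

theorem result (n : ℕ) (hn : 3 ≤ n) (p : ℤ) (P : ℕ → ℤ → OnePoint ℂ)
    (hper : ∀ i, P 0 (i + 2*n) = P 0 i)
    (hH : HasH (P 0) p)
    (hstep : ∀ s : ℕ, s < 2*n-6 → IsStep (p+1+s) (P s) (P (s+1)))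
    (hdef : ∀ i, i ≡ p+1 [ZMOD 2] → ∃ X, IsMu (P (2*n-6)) i X) :
    HasH (P (2*n-6)) (p+1) := by
  obtain ⟨O, hO⟩ := hH
  classical
  choose! X hX using hdef
  let Q : ℕ → ℤ → OnePoint ℂ := fun s k => P s (k + p)
  have q0 : ∀ i, Q 0 (i + 2*n) = Q 0 i := by
    intro i
    have := hper (i+p)
    show P 0 (i + 2*n + p) = P 0 (i + p)
    rw [← this]; congr 1; ring
  have q1 : ∀ i, Even i → IsMu (Q 0) i O := fun i hi =>
    IsMu_shift (hO (i+p) (by rw [Int.even_iff] at hi; unfold Int.ModEq; omega))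
  have q2 : ∀ s < 2*n-6, ∀ i, Even (i + ((s+1 : ℕ) : ℤ)) → IsMu (Q s) i (Q (s+1) i) := fun s hs i hi =>
    IsMu_shift (((hstep s hs) (i+p)).1 (by rw [Int.even_iff] at hi; unfold Int.ModEq; push_cast at hi; omega))
  have q3 : ∀ s < 2*n-6, ∀ i, ¬ Even (i + ((s+1 : ℕ) : ℤ)) → Q (s+1) i = Q s i := fun s hs i hi =>
    ((hstep s hs) (i+p)).2 (by rw [Int.even_iff] at hi; unfold Int.ModEq; push_cast at hi; omega)
  have q4 : ∀ i, Even (i + ((2*n-6+1 : ℕ) : ℤ)) → IsMu (Q (2*n-6)) i (X (i+p)) := fun i hi =>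
    IsMu_shift (hX (i+p) (by
      rw [Int.even_iff] at hi
      have e : ((2*n-6+1 : ℕ) : ℤ) = 2 * (n:ℤ) - 5 := by omega
      rw [e] at hi
      unfold Int.ModEq; omega))
  have key : ∀ i j, Even (i + ((2*n-6+1 : ℕ) : ℤ)) → Even (j + ((2*n-6+1 : ℕ) : ℤ)) → X (i+p) = X (j+p) := by
    intro i j hi hj
    by_cases h : ∃ j0, ¬ Even j0 ∧ Q 0 j0 = O
    · obtain ⟨j0, h1, h2⟩ := h
      exact core_deg hn Q q0 O q1 q2 q3 (fun i => X (i+p)) q4 j0 h1 h2 i j hi hj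
    · push Not at h
      exact core_nd hn Q q0 O h q1 q2 q3 (fun i => X (i+p)) q4 i j hi hj
  refine ⟨X (p+1), fun i hi => ?_⟩
  have e : ((2*n-6+1 : ℕ) : ℤ) = 2 * (n:ℤ) - 5 := by omega
  have k := key (i-p) 1 (by rw [e, Int.even_iff]; unfold Int.ModEq at hi; omega) (by rw [e, Int.even_iff]; omega)
  rw [sub_add_cancel, add_comm 1 p] at k
  rw [← k]
  exact hX i hi

end Pool.Agent.Results.MP_b17976_an.CircleDevron
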